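import Pool.Agent.Lib.H65M.Num

/-!
# Aharoni-Charbit-Howard for all pairs of matroids, asymptotically

Let `M₁`, `M₂` be two matroids (any ground set) and `B_1, ..., B_k`, `k ≥ 3`, sets which are
independent in both and have at least `k + 72 k / log log k` elements each (disjoint or not). Then
there are distinct `x_i ∈ B_i` such that `{x_1, ..., x_k}` is independent in `M₁` and in `M₂`.

Proof (Pool/Agent/Lib/H65M). Induction on the number of sets: let `T` be a common independent
transversal of all sets but one. Walks: add an element `a` of the missing set, free in `M₁`, and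
remove `e ∈ T` so that the `M₂`-span does not change. Handicap sets `H` are contracted in `M₁`.
If in a ball of radius `D` around `T` almost all missing sets `R` of the ball can be reached from
every state in `d` moves (with a few more handicaps), then one removes, `c` by `c`, almost all
elements of `T` of colours in `R` (each of them becomes a handicap at once) and returns in `d`
moves: submodularity of the rank of `M₁` gives a contradiction if `d` is small compared with `c`.
Otherwise a smaller ball with fewer colours appears: induction over `32 E` levels with radii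
`r_{k+1} = 8 E r_k^2 + r_k + 1`.
-/

set_option autoImplicit false

namespace Pool.Agent.Results.MP_b95b09_co.AsymptoticTransversal

universe u

theorem result (k : ℕ) (hk : 3 ≤ k) (α : Type u) (M₁ M₂ : Matroid α) (B : Fin k → Set α)
    (hB : ∀ i, M₁.Indep (B i) ∧ M₂.Indep (B i) ∧
      ((⌈(k : ℝ) + 72 * k / Real.log (Real.log k)⌉₊ : ℕ) : ℕ∞) ≤ (B i).encard) :
    ∃ f : Fin k → α, Function.Injective f ∧ (∀ i, f i ∈ B i) ∧
      M₁.Indep (Set.range f) ∧ M₂.Indep (Set.range f) := by
  classical
  set N : ℕ := ⌈(k : ℝ) + 72 * k / Real.log (Real.log k)⌉₊ with hN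
  have hex : ∀ i, ∃ F : Finset α, (F : Set α) ⊆ B i ∧ F.card = N := by
    intro i
    obtain ⟨S, hS, hSc⟩ := Set.exists_subset_encard_eq (hB i).2.2
    have hfin : S.Finite := Set.finite_of_encard_eq_coe hSc
    refine ⟨hfin.toFinset, by simpa using hS, ?_⟩
    rw [hfin.encard_eq_coe_toFinset_card] at hSc
    exact_mod_cast hSc
  choose F hFB hFc using hex
  have hk0 : (0 : ℝ) < k := by exact_mod_cast (by omega : 0 < k)
  have hk1 : (1 : ℝ) < k := by exact_mod_cast (by omega : 1 < k)
  have hlog : 1 < Real.log k := by
    rw [Real.lt_log_iff_exp_lt hk0]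
    have h1 := Real.exp_one_lt_d9
    have h2 : (3 : ℝ) ≤ k := by exact_mod_cast hk
    linarith
  have hL : 0 < Real.log (Real.log k) := Real.log_pos hlog
  have hNr : (k : ℝ) + 72 * k / Real.log (Real.log k) ≤ N := Nat.le_ceil _
  have hcase : 2 * k ≤ N + 1 ∨ ∃ E, 0 < E ∧ E * k + k ≤ E * N ∧ H65M.n0 E ≤ k := by
    by_cases h36 : Real.log (Real.log k) < 36
    · left
      have h1 : (2 : ℝ) * k ≤ 72 * k / Real.log (Real.log k) := by
        rw [le_div_iff₀ hL]
        nlinarith
      have h2 : (2 * k : ℝ) ≤ N := by linarith
      have h3 : 2 * k ≤ N := by exact_mod_cast h2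
      omega
    · right
      push Not at h36
      set E : ℕ := ⌊Real.log (Real.log k) / 36⌋₊ with hE
      have h1 : 1 ≤ Real.log (Real.log k) / 36 := by
        rw [le_div_iff₀ (by norm_num)]; linarith
      have hE1 : 1 ≤ E := Nat.le_floor (by exact_mod_cast h1)
      have hE2 : (E : ℝ) ≤ Real.log (Real.log k) / 36 := Nat.floor_le (by positivity)
      have hE3 : Real.log (Real.log k) / 36 < E + 1 := Nat.lt_floor_add_one _
      have hE4 : (1 : ℝ) ≤ E := by exact_mod_cast hE1
      refine ⟨E, hE1, ?_, H65M.n0_le_of_loglog hE1 hk (by linarith)⟩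
      have h2 : Real.log (Real.log k) ≤ 72 * E := by linarith
      have h3 : (k : ℝ) ≤ E * (72 * k / Real.log (Real.log k)) := by
        rw [← mul_div_assoc, le_div_iff₀ hL]
        nlinarith
      have h4 : (E : ℝ) * k + k ≤ E * N := by
        have := mul_le_mul_of_nonneg_left hNr (by positivity : (0 : ℝ) ≤ E)
        nlinarith
      exact_mod_cast h4
  obtain ⟨f, hf, hfB, h1, h2⟩ := H65M.full_of_card (M₁ := M₁) (M₂ := M₂) hcase k le_rfl F
    (fun i => ⟨(hFc i).ge, (hB i).1.subset (hFB i), (hB i).2.1.subset (hFB i)⟩)
  exact ⟨f, hf, fun i => hFB i (hfB i), h1, h2⟩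

end Pool.Agent.Results.MP_b95b09_co.AsymptoticTransversal
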