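import Pool.Agent.Lib.H65M.Part

/-!
# Aharoni-Charbit-Howard for one partition matroid and one arbitrary matroid: `k + √(2k)`

Let `M` be any matroid and let `A` be a `k × (k + t)` array of elements of `M` each of whose rows
consists of distinct elements and is independent, with `2 (k - 1) ≤ t (t + 1)`
(for example `t ≥ √(2k)`).  Then one can choose one entry of each row, in distinct columns, so that
the chosen entries are distinct and form an independent set.

Proof (Pool/Agent/Lib/H65M/Part.lean).  Let `T` be a partial choice in all rows but one, without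
full choice.  Moves: choose an entry `b` of the missing row in a free column and remove an entry
of the circuit of `b` in `T` (the span of `T` does not change).  A handicap set `H` of columns is
forbidden.  Let `R(T; H)` be the set of rows which are missing in some reachable state; then
`|R(T; H)| ≥ s (s - 1) / 2 + 2`, `s` the number of free columns.  Induction on `s`: a row `j` of
`R` has at least `s` columns (outside of the frozen ones) which are occupied in all states missing
`j`; a column `x` which is not frozen is free in some state, and after adding `x` to `H` the rows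
`j` for which `x` is such a column are not reachable any more; double counting.
-/

set_option autoImplicit false

namespace Pool.Agent.Results.MP_b95b09_co.PartitionTransversal

universe u

open Finset H65M

/-- pairs (column, entry), independent when the columns are distinct -/
noncomputable def colM (N : ℕ) (α : Type u) : Matroid (Fin N × α) :=
  (Matroid.freeOn (Set.univ : Set (Fin N))).comap Prod.fst

lemma colM_indep {N : ℕ} {α : Type u} {I : Set (Fin N × α)} :
    (colM N α).Indep I ↔ Set.InjOn Prod.fst I := by
  unfold colM
  rw [Matroid.comap_indep_iff]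
  constructor
  · exact fun h => h.2
  · intro h
    exact ⟨by rw [Matroid.freeOn_indep_iff]; exact Set.subset_univ _, h⟩

/-- induction on the number of rows -/
lemma full_of_part {α : Type u} [DecidableEq α] {N : ℕ} (M : Matroid (Fin N × α)) {k t : ℕ}
    (hN : k + t = N) (ht : 2 * k ≤ t * (t + 1) + 2) :
    ∀ m ≤ k, ∀ B : Fin m → Finset (Fin N × α),
      (∀ i, (B i).card = N ∧ Set.InjOn Prod.fst (B i : Set (Fin N × α)) ∧
        M.Indep (B i : Set (Fin N × α))) →
      Full (colM N α) M B := by
  intro m
  induction m with
  | zero =>
    intro _ B _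
    refine ⟨fun i => i.elim0, fun i => i.elim0, fun i => i.elim0, ?_, ?_⟩
    · rw [Set.range_eq_empty]; exact (colM N α).empty_indep
    · rw [Set.range_eq_empty]; exact M.empty_indep
  | succ m ih =>
    intro hm B hB
    by_contra hno
    have hgood := good_of_not_full (N := N)
      (fun i => ⟨(hB i).1.ge, colM_indep.mpr (hB i).2.1, (hB i).2.2⟩) hno
    obtain ⟨T, hs⟩ := st_of_full (B := B) (ih (by omega) _ (fun i => hB i.castSucc))
    have hc := hs.card
    rw [Fintype.card_fin] at hc
    have hπ : IsPart (sysOf (colM N α) M B) (fun p => p.2.1) := by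
      intro X
      show (ofM (colM N α) Prod.snd).Ind X ↔ _
      rw [ofM_ind_iff, colM_indep]
      constructor
      · rintro ⟨h1, h2⟩ p hp q hq hpq
        exact h2 hp hq (h1 (Set.mem_image_of_mem _ hp) (Set.mem_image_of_mem _ hq) hpq)
      · intro h
        refine ⟨?_, fun p hp q hq hpq => h hp hq (congrArg Prod.fst hpq)⟩
        rintro _ ⟨p, hp, rfl⟩ _ ⟨q, hq, rfl⟩ hpq
        rw [h hp hq hpq]
    have h1 := part_level hgood hπ (N - T.card - 1) T ∅ (Fin.last m) hs (by simp; omega)
    have h2 : (Ri (sysOf (colM N α) M B) ∅ T (Fin.last m)).card ≤ m + 1 := by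
      have := card_le_univ (Ri (sysOf (colM N α) M B) ∅ T (Fin.last m))
      rwa [Fintype.card_fin] at this
    obtain ⟨u, hu⟩ : ∃ u, N - T.card - 1 = t + u := ⟨N - T.card - 1 - t, by omega⟩
    rw [hu] at h1
    nlinarith [Nat.zero_le (t * u), Nat.zero_le (u * u)]

theorem result (k t : ℕ) (ht : 2 * k ≤ t * (t + 1) + 2) (α : Type u) (M : Matroid α)
    (A : Fin k → Fin (k + t) → α)
    (hA : ∀ i, Function.Injective (A i) ∧ M.Indep (Set.range (A i))) :
    ∃ σ : Fin k → Fin (k + t), Function.Injective σ ∧
      Function.Injective (fun i => A i (σ i)) ∧ M.Indep (Set.range fun i => A i (σ i)) := by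
  classical
  obtain ⟨f, hf, hfB, h1, h2⟩ := full_of_part (N := k + t) (M.comap Prod.snd) rfl ht k le_rfl
    (fun i => univ.image (fun x => (x, A i x))) (by
      intro i
      refine ⟨?_, ?_, ?_⟩
      · rw [card_image_of_injective _ (fun x y h => congrArg Prod.fst h), card_univ,
          Fintype.card_fin]
      · intro p hp q hq hpq
        rw [mem_coe, mem_image] at hp hq
        obtain ⟨x, -, rfl⟩ := hp
        obtain ⟨y, -, rfl⟩ := hq
        have : x = y := hpq
        rw [this]
      · rw [Matroid.comap_indep_iff]
        constructor
        · have : (Prod.snd : Fin (k + t) × α → α) '' ((univ.image (fun x => (x, A i x)) :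
              Finset (Fin (k + t) × α)) : Set (Fin (k + t) × α)) = Set.range (A i) := by
            ext a
            simp
          rw [this]
          exact (hA i).2
        · intro p hp q hq hpq
          rw [mem_coe, mem_image] at hp hq
          obtain ⟨x, -, rfl⟩ := hp
          obtain ⟨y, -, rfl⟩ := hq
          have : x = y := (hA i).1 hpq
          rw [this])
  have hval : ∀ i, (f i).2 = A i (f i).1 := by
    intro i
    have := hfB i
    rw [mem_image] at this
    obtain ⟨x, -, hx⟩ := this
    rw [← hx]
  have hinj1 := colM_indep.mp h1
  rw [Matroid.comap_indep_iff] at h2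
  refine ⟨fun i => (f i).1, ?_, ?_, ?_⟩
  · intro i j hij
    exact hf (hinj1 ⟨i, rfl⟩ ⟨j, rfl⟩ hij)
  · intro i j hij
    have hij' : (f i).2 = (f j).2 := by rw [hval, hval]; exact hij
    exact hf (h2.2 ⟨i, rfl⟩ ⟨j, rfl⟩ hij')
  · have : (Set.range fun i => A i (f i).1) = Prod.snd '' Set.range f := by
      ext a
      constructor
      · rintro ⟨i, rfl⟩
        exact ⟨f i, ⟨i, rfl⟩, hval i⟩
      · rintro ⟨_, ⟨i, rfl⟩, rfl⟩
        exact ⟨i, (hval i).symm⟩
    rw [this]
    exact h2.1

end Pool.Agent.Results.MP_b95b09_co.PartitionTransversal
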