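import Pool.Agent.Lib.H90P.Fin

/-!
# Aharoni-Charbit-Howard when one matroid is a direct sum of few uniform matroids

`M₁` is a direct sum of `ℓ` uniform matroids of total rank `k + 1` (parts `P⁻¹ v`, ranks `c v`), `M₂` is
any matroid, and `B i` (`i : Fin k`) are common independent sets of size `k + 1`. There is a transversal
`x` independent in `M₂` all but at most `max 0 (ℓ - 3)` of whose elements form an independent set of `M₁`.
So for `ℓ ≤ 3` there is a common independent transversal.

Proof (one page: Pool/Agent/Lib/H90P/PROOF.md). Among the transversals independent in `M₂` take one with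
minimal total excess `f = ∑ (cnt v - c v)⁺`, and among those one with the maximal number of deficient
parts (`cnt v < c v`). Exchange steps along circuits show that all deficits are one (this uses `f` rows
in parts with excess, and an induction along levels of parts), and that for some optimal transversal there
is an exact part. The deficits add up to `f + 1`, so if `f > 0`, there are at least `(f + 1) + 1 + 1` parts.
-/

set_option autoImplicit false

namespace Pool.Agent.Results.MP_b95b09_co.UniformSums

universe u

theorem result (k ℓ : ℕ) (α : Type u) (M₁ M₂ : Matroid α) (P : α → Fin ℓ) (c : Fin ℓ → ℕ)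
    (h₁ : ∀ I ⊆ M₁.E, M₁.Indep I ↔ ∀ v, (I ∩ P ⁻¹' {v}).encard ≤ c v)
    (hc : ∑ v, c v = k + 1) (B : Fin k → Set α)
    (hB : ∀ i, M₁.Indep (B i) ∧ M₂.Indep (B i) ∧ (B i).encard = k + 1) :
    ∃ (x : Fin k → α) (J : Finset (Fin k)), (∀ i, x i ∈ B i) ∧ Function.Injective x ∧
      M₂.Indep (Set.range x) ∧ k ≤ J.card + (ℓ - 3) ∧ M₁.Indep (x '' J) :=
  Pool.Agent.Lib.H90P.main_sum k ℓ α M₁ M₂ P c h₁ hc B hB

end Pool.Agent.Results.MP_b95b09_co.UniformSums
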